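import Pool.Agent.W326.DU.Stm

/-! DU-BC: base change. -/

set_option autoImplicit false

namespace Pool.Agent.W571.DU.BC

open Pool.Agent.W326.DU

variable (R : Type) [CommRing R] {H G : Type} [Group H] [Group G] (ι : H →* G)
  (hι : Function.Injective ι)

include hι in
lemma inj_g (g : G) : Function.Injective (fun h : H => g * ι h) := fun a b hab =>
  hι (mul_left_cancel hab)

/-- the coefficient functions on the cosets -/
noncomputable def pi (g : G) : MonoidAlgebra R G →+ MonoidAlgebra R H :=
  MonoidAlgebra.comapDomainAddMonoidHom (fun h : H => g * ι h) (inj_g ι hι g)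

lemma pi_coeff (g : G) (x : MonoidAlgebra R G) (h : H) :
    (pi R ι hι g x).coeff h = x.coeff (g * ι h) := rfl

lemma pi_mul (g : G) (x : MonoidAlgebra R G) (h : H) :
    pi R ι hι g (x * MonoidAlgebra.of R G (ι h)) = pi R ι hι g x * MonoidAlgebra.of R H h := by
  apply MonoidAlgebra.ext
  ext a
  rw [pi_coeff, MonoidAlgebra.of_apply, MonoidAlgebra.of_apply,
    MonoidAlgebra.coeff_mul_single_apply, MonoidAlgebra.coeff_mul_single_apply, pi_coeff,
    ι.map_mul, ι.map_inv, mul_assoc g]

lemma pi_mul_sub (g : G) (x : MonoidAlgebra R G) (h : H) :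
    pi R ι hι g (x * (MonoidAlgebra.of R G (ι h) - 1)) =
      pi R ι hι g x * (MonoidAlgebra.of R H h - 1) := by
  rw [mul_sub, mul_one, map_sub, pi_mul, mul_sub, mul_one]

lemma mul_mem_IL {H : Type} [Group H] (S : Set H) (a : MonoidAlgebra R H) (s : H) (hs : s ∈ S) :
    a * (MonoidAlgebra.of R H s - 1) ∈ IL R S :=
  Submodule.smul_mem _ a (Submodule.subset_span ⟨s, hs, rfl⟩)

lemma pi_mem (S : Set H) (x : MonoidAlgebra R G) (hx : x ∈ IL R (ι '' S)) :
    ∀ (a : MonoidAlgebra R G) (g : G), pi R ι hι g (a * x) ∈ IL R S := by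
  unfold IL at hx
  induction hx using Submodule.span_induction with
  | mem x hx =>
    intro a g
    obtain ⟨_, ⟨s, hs, rfl⟩, rfl⟩ := hx
    rw [pi_mul_sub]
    exact mul_mem_IL R S _ s hs
  | zero =>
    intro a g
    rw [mul_zero, map_zero]
    exact Submodule.zero_mem _
  | add x y _ _ hx hy =>
    intro a g
    rw [mul_add, map_add]
    exact Submodule.add_mem _ (hx a g) (hy a g)
  | smul b x _ hx =>
    intro a g
    rw [smul_eq_mul, ← mul_assoc]
    exact hx (a * b) g

lemma map_mem (L : Set H) (y : MonoidAlgebra R H) (hy : y ∈ IL R L) :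
    MonoidAlgebra.mapDomainRingHom R ι y ∈ IL R (ι '' L) := by
  unfold IL at hy
  induction hy using Submodule.span_induction with
  | mem x hx =>
    obtain ⟨s, hs, rfl⟩ := hx
    rw [map_sub, map_one]
    have h1 : MonoidAlgebra.mapDomainRingHom R ι (MonoidAlgebra.of R H s) =
        MonoidAlgebra.of R G (ι s) := by
      simp [MonoidAlgebra.of_apply]
    rw [h1]
    exact Submodule.subset_span ⟨ι s, ⟨s, hs, rfl⟩, rfl⟩
  | zero =>
    rw [map_zero]
    exact Submodule.zero_mem _
  | add x y _ _ hx hy =>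
    rw [map_add]
    exact Submodule.add_mem _ hx hy
  | smul b x _ hx =>
    rw [smul_eq_mul, map_mul]
    exact Submodule.smul_mem _ _ hx

lemma coeff_term (g a : G) (x : MonoidAlgebra R G) :
    (MonoidAlgebra.of R G g * MonoidAlgebra.mapDomainRingHom R ι (pi R ι hι g x)).coeff a =
      (open Classical in if g⁻¹ * a ∈ ι.range then x.coeff a else 0) := by
  rw [MonoidAlgebra.of_apply, MonoidAlgebra.coeff_single_mul_apply, one_mul,
    MonoidAlgebra.mapDomainRingHom_apply, MonoidAlgebra.coeff_mapDomain]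
  split_ifs with h
  · obtain ⟨b, hb⟩ := h
    rw [← hb, Finsupp.mapDomain_apply hι, pi_coeff, hb, mul_inv_cancel_left]
  · rw [Finsupp.mapDomain_of_notMem_range]
    rintro ⟨b, hb⟩
    exact h ⟨b, hb⟩

lemma decomp (x : MonoidAlgebra R G) :
    x = (open Classical in ∑ q ∈ x.coeff.support.image (fun a : G => (QuotientGroup.mk a : G ⧸ ι.range)),
      MonoidAlgebra.of R G q.out *
        MonoidAlgebra.mapDomainRingHom R ι (pi R ι hι q.out x)) := by
  classical
  apply MonoidAlgebra.ext
  ext a
  rw [MonoidAlgebra.coeff_sum, Finsupp.finsetSum_apply]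
  simp only [coeff_term]
  have key : ∀ q : G ⧸ ι.range, q.out⁻¹ * a ∈ ι.range ↔ q = (a : G ⧸ ι.range) := by
    intro q
    rw [← QuotientGroup.eq, QuotientGroup.out_eq']
  by_cases ha : x.coeff a = 0
  · rw [ha]
    simp
  · rw [Finset.sum_eq_single (a : G ⧸ ι.range)]
    · rw [if_pos ((key _).2 rfl)]
    · intro q _ hq
      rw [if_neg]
      intro h
      exact hq ((key q).1 h)
    · intro h
      exact absurd (Finset.mem_image.2 ⟨a, Finsupp.mem_support_iff.2 ha, rfl⟩) h

theorem th : PropBC := by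
  intro R _ H G _ _ ι hι S v L hstar x hx
  have h1 : ∀ g : G, pi R ι hι g x ∈ IL R L := by
    intro g
    apply hstar
    have h2 := pi_mem R ι hι S _ hx 1 g
    rw [one_mul, pi_mul_sub] at h2
    exact h2
  rw [decomp R ι hι x]
  apply Submodule.sum_mem
  intro q _
  exact Submodule.smul_mem _ _ (map_mem R ι L _ (h1 _))

end Pool.Agent.W571.DU.BC
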