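import Pool.Agent.W326.DU.Stm

/-! DU-NF1: divisibility. -/

set_option autoImplicit false

namespace Pool.Agent.W571.DU.NF1

open Pool.Agent.W326.DU

lemma sg2_fwd : ∀ i0 i : Fin 26, sg2 i (eL i0).1 (eL i0).2 = if i = i0 then 1 else 0 := by
  decide

lemma sg2_bwd : ∀ i0 i : Fin 26, sg2 i (eL i0).2 (eL i0).1 = if i = i0 then -1 else 0 := by
  decide

lemma kap_symm : ∀ a b : Fin 10, kap a b = - kap b a := by decide

lemma alt2_fwd {M : Type} [AddCommGroup M] (c : Fin 26 → M) (i0 : Fin 26) :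
    alt2 c (eL i0).1 (eL i0).2 = c i0 := by
  unfold alt2
  rw [Finset.sum_eq_single i0]
  · rw [sg2_fwd, if_pos rfl, one_smul]
  · intro i _ hi
    rw [sg2_fwd, if_neg hi, zero_smul]
  · intro h
    exact absurd (Finset.mem_univ _) h

lemma alt2_bwd {M : Type} [AddCommGroup M] (c : Fin 26 → M) (i0 : Fin 26) :
    alt2 c (eL i0).2 (eL i0).1 = - c i0 := by
  unfold alt2
  rw [Finset.sum_eq_single i0]
  · rw [sg2_bwd, if_pos rfl, neg_smul, one_smul]
  · intro i _ hi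
    rw [sg2_bwd, if_neg hi, zero_smul]
  · intro h
    exact absurd (Finset.mem_univ _) h

lemma tri_adj : ∀ j : Fin 16, adj (tL j).2.1 (tL j).2.2 ∧ adj (tL j).1 (tL j).2.2 ∧
    adj (tL j).1 (tL j).2.1 := by decide

lemma tri_kap : ∀ j : Fin 16, kap (tL j).2.1 (tL j).2.2 - kap (tL j).1 (tL j).2.2 +
    kap (tL j).1 (tL j).2.1 = 0 := by decide

/-- the correction -/
def rho : Fin 4 → ℤ := ![0, 0, -1, -1]

lemma mm_adj : ∀ k : Fin 4, adj (mm k) (mm (k + 1)) := by decide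

lemma pp_adj : ∀ k : Fin 4, adj (pp k) (pp (k + 1)) := by decide

lemma rho_eq : ∀ k : Fin 4, kap (mm k) (mm (k + 1)) - rho (k + 1) + rho k =
    2 * kap (pp k) (pp (k + 1)) := by decide

section

variable {M : Type} [AddCommGroup M] (S : Fin 10 → M →+ M)
  (hS : ∀ a b, adj a b → ∀ x, S a (S b x) = S b (S a x)) (m : M)

/-- the cochain -/
def cc (i : Fin 26) : M := kap (eL i).1 (eL i).2 • S (eL i).1 (S (eL i).2 m)

include hS in
lemma alt2_cc (a b : Fin 10) (h : adj a b) : alt2 (cc S m) a b = kap a b • S a (S b m) := by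
  obtain ⟨i, hi | hi⟩ := h
  · have h1 := alt2_fwd (cc S m) i
    rw [hi] at h1
    rw [h1, cc, hi]
  · have h1 := alt2_bwd (cc S m) i
    rw [hi] at h1
    rw [h1, cc, hi]
    simp only
    rw [kap_symm a b, neg_smul, hS b a ⟨i, Or.inl hi⟩]

end

theorem th : PropNF1 := by
  intro M _ S T hS hT m
  refine ⟨cc S m, fun k => rho k • S (pp k) (T m), ?_, ?_⟩
  · intro j
    obtain ⟨h23, h13, h12⟩ := tri_adj j
    unfold e2
    rw [alt2_cc S hS m _ _ h23, alt2_cc S hS m _ _ h13, alt2_cc S hS m _ _ h12]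
    rw [map_zsmul, map_zsmul, map_zsmul]
    have e1 : S (tL j).2.1 (S (tL j).1 (S (tL j).2.2 m)) =
        S (tL j).1 (S (tL j).2.1 (S (tL j).2.2 m)) := (hS _ _ h12 _).symm
    have e2 : S (tL j).2.2 (S (tL j).1 (S (tL j).2.1 m)) =
        S (tL j).1 (S (tL j).2.1 (S (tL j).2.2 m)) := by
      rw [← hS _ _ h13, ← hS _ _ h23]
    rw [e1, e2, ← sub_smul, ← add_smul, tri_kap, zero_smul]
  · intro k
    unfold g2 om
    rw [alt2_cc S hS m _ _ (mm_adj k), alt2_cc S hS m _ _ (pp_adj k), map_zsmul, map_zsmul,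
      map_zsmul, hT, hT, hS _ _ (by
        obtain ⟨i, hi⟩ := pp_adj k
        exact ⟨i, hi.symm⟩ : adj (pp (k + 1)) (pp k)) (T m)]
    have h := rho_eq k
    have h2 : kap (mm k) (mm (k + 1)) =
      2 * kap (pp k) (pp (k + 1)) + rho (k + 1) - rho k := by linarith
    rw [h2, sub_smul, add_smul, mul_smul]
    rw [show (2 : ℤ) • kap (pp k) (pp (k + 1)) • (S (pp k)) ((S (pp (k + 1))) (T m)) =
      (2 : ℕ) • kap (pp k) (pp (k + 1)) • (S (pp k)) ((S (pp (k + 1))) (T m)) from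
      by rw [two_smul, two_nsmul]]
    abel

end Pool.Agent.W571.DU.NF1
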